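import Pool.Agent.H616Z.Beurling.Main

set_option autoImplicit false

namespace Pool.Agent.Results.MP_c984ee_an.Eigenvalue

open MeasureTheory Pool.Agent.H616Z.Beurling
open scoped ENNReal

/-- For the weight `w0(z) = |z|^(-3/2)` and every `1 < p < ∞`: `w0 ∈ A_p`, and there is a nonzero
`F ∈ L^p(w0)` with `TF = F`, both for the principal value integral (at almost every point) and for
every bounded operator on `L^p(w0)` given by that integral on smooth compactly supported functions;
so `1` is an eigenvalue and the spectrum is not continuous. -/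
theorem result (p : ℝ≥0∞) [Fact (1 ≤ p)] (hp : 1 < p) (hp' : p ≠ ⊤) :
    IsAp p.toReal w0 ∧ ∃ F : LpW p w0, F ≠ 0 ∧ (∀ᵐ z : ℂ, PVAt F z (F z)) ∧
      ∀ S : LpW p w0 → LpW p w0, IsBeurlingOp p w0 S →
        S F = F ∧ (1 : ℂ) ∈ pointSpectrum S ∧ ¬ HasContinuousSpectrum S :=
  main p hp hp'

end Pool.Agent.Results.MP_c984ee_an.Eigenvalue
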